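import Pool.Agent.Helper82.CG.NFBase

/-!
# NF1: splitting off the eigenvalues with `P`
-/

set_option autoImplicit false

namespace Pool.Agent.Helper97.CG

open Matrix Pool.Agent.Helper14.RG

universe u

namespace NF

variable {k : Type u} [Field k]

/-- the matrix product over three classes of indices -/
theorem sum3 {e e' w : ℕ} (f : Fin e ⊕ (Fin e' ⊕ Fin w) → k) :
    ∑ x, f x = (∑ i, f (Sum.inl i)) + ((∑ i, f (Sum.inr (Sum.inl i))) +
      ∑ i, f (Sum.inr (Sum.inr i))) := by
  rw [Fintype.sum_sum_type, Fintype.sum_sum_type]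

/-- pairing of the first two classes -/
theorem pairing {e e' w : ℕ}
    (G K : Matrix (Fin e ⊕ (Fin e' ⊕ Fin w)) (Fin e ⊕ (Fin e' ⊕ Fin w)) k) (hGK : G * K = 1)
    (hKG : K * G = 1) (h11 : ∀ i j, G (Sum.inl i) (Sum.inl j) = 0)
    (h13 : ∀ i j, G (Sum.inl i) (Sum.inr (Sum.inr j)) = 0)
    (h22 : ∀ i j, G (Sum.inr (Sum.inl i)) (Sum.inr (Sum.inl j)) = 0)
    (h31 : ∀ i j, G (Sum.inr (Sum.inr i)) (Sum.inl j) = 0)
    (h32 : ∀ i j, G (Sum.inr (Sum.inr i)) (Sum.inr (Sum.inl j)) = 0) :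
    (G.submatrix (Sum.inl : Fin e → _) (fun i : Fin e' => Sum.inr (Sum.inl i))) *
        (K.submatrix (fun i : Fin e' => Sum.inr (Sum.inl i)) (Sum.inl : Fin e → _)) = 1 ∧
      (K.submatrix (fun i : Fin e' => Sum.inr (Sum.inl i)) (Sum.inl : Fin e → _)) *
        (G.submatrix (Sum.inl : Fin e → _) (fun i : Fin e' => Sum.inr (Sum.inl i))) = 1 ∧
      (G.submatrix (fun i : Fin w => Sum.inr (Sum.inr i)) (fun i : Fin w => Sum.inr (Sum.inr i))) *
        (K.submatrix (fun i : Fin w => Sum.inr (Sum.inr i)) (fun i : Fin w =>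
          Sum.inr (Sum.inr i))) = 1 := by
  refine ⟨?_, ?_, ?_⟩
  · ext i j
    have h1 := congrFun (congrFun hGK (Sum.inl i)) (Sum.inl j)
    rw [Matrix.mul_apply, sum3] at h1
    simp only [h11, h13, zero_mul, Finset.sum_const_zero, zero_add, add_zero] at h1
    rw [Matrix.mul_apply]
    simp only [Matrix.submatrix_apply]
    rw [h1, Matrix.one_apply, Matrix.one_apply]
    simp
  · ext i j
    have h1 := congrFun (congrFun hKG (Sum.inr (Sum.inl i))) (Sum.inr (Sum.inl j))
    rw [Matrix.mul_apply, sum3] at h1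
    simp only [h22, h32, mul_zero, Finset.sum_const_zero, add_zero] at h1
    rw [Matrix.mul_apply]
    simp only [Matrix.submatrix_apply]
    rw [h1, Matrix.one_apply, Matrix.one_apply]
    simp
  · ext i j
    have h1 := congrFun (congrFun hGK (Sum.inr (Sum.inr i))) (Sum.inr (Sum.inr j))
    rw [Matrix.mul_apply, sum3] at h1
    simp only [h31, h32, zero_mul, Finset.sum_const_zero, zero_add] at h1
    rw [Matrix.mul_apply]
    simp only [Matrix.submatrix_apply]
    rw [h1, Matrix.one_apply, Matrix.one_apply]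
    simp

end NF

open NF

variable {k : Type u} [Field k] [IsAlgClosed k] [CharZero k]

theorem st_NF1 : ST_NF1 k := by
  intro n _ _ ε J s hJ hs N hN hsN P hP
  obtain ⟨u0, χ, hu0, hsu0⟩ := exists_diag s N hN hsN
  -- the eigenvalues are not zero
  have hdiag : (diagonal χ) ^ N = (1 : Matrix n n k) := by
    have h1 : ∀ m : ℕ, s ^ m * u0 = u0 * (diagonal χ) ^ m := by
      intro m
      induction m with
      | zero => rw [pow_zero, pow_zero, Matrix.one_mul, Matrix.mul_one]
      | succ m ih =>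
        rw [pow_succ', Matrix.mul_assoc, ih, ← Matrix.mul_assoc, hsu0, Matrix.mul_assoc, ← pow_succ']
    have h2 := h1 N
    rw [hsN, Matrix.one_mul] at h2
    have h3 := congrArg (fun M => u0⁻¹ * M) h2
    rw [← Matrix.mul_assoc, Matrix.nonsing_inv_mul _ (isUnit_iff_ne_zero.2 hu0),
      Matrix.one_mul] at h3
    exact h3.symm
  have hχ0 : ∀ i, χ i ≠ 0 := by
    intro i h0
    have h1 := congrFun (congrFun hdiag i) i
    rw [Matrix.diagonal_pow, Matrix.diagonal_apply_eq, Matrix.one_apply_eq, Pi.pow_apply, h0,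
      zero_pow hN.ne'] at h1
    exact zero_ne_one h1
  set J' : Matrix n n k := u0ᵀ * J * u0 with hJ'
  have hJ'det : J'.det ≠ 0 := by
    rw [hJ', Matrix.det_mul, Matrix.det_mul, Matrix.det_transpose]
    exact mul_ne_zero (mul_ne_zero hu0 hJ.det_ne) hu0
  have hJ'symm : J'ᵀ = ε • J' := by
    rw [hJ', Matrix.transpose_mul, Matrix.transpose_mul, Matrix.transpose_transpose, hJ.symm,
      Matrix.smul_mul, Matrix.mul_smul, Matrix.mul_assoc]
  have hχJ : diagonal χ * J' * diagonal χ = J' := by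
    calc diagonal χ * J' * diagonal χ = (u0 * diagonal χ)ᵀ * J * (u0 * diagonal χ) := by
          rw [Matrix.transpose_mul, Matrix.diagonal_transpose, hJ']
          simp only [Matrix.mul_assoc]
      _ = (s * u0)ᵀ * J * (s * u0) := by rw [hsu0]
      _ = u0ᵀ * (sᵀ * J * s) * u0 := by
          rw [Matrix.transpose_mul]
          simp only [Matrix.mul_assoc]
      _ = J' := by rw [hs]
  have hχJ' : ∀ i j, J' i j ≠ 0 → χ j = (χ i)⁻¹ := by
    intro i j h
    have h1 := congrFun (congrFun hχJ i) j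
    rw [Matrix.mul_diagonal, Matrix.diagonal_mul] at h1
    have h2 : χ j * χ i = 1 := by
      apply mul_right_cancel₀ h
      rw [one_mul]
      linear_combination h1
    exact eq_inv_of_mul_eq_one_left h2
  obtain ⟨e, e', w, τ, ht1, ht2, ht3⟩ := exists_split (fun i => P (χ i)) (fun i => P (χ i)⁻¹)
    (fun i hi => hP _ hi)
  set G := J'.submatrix τ τ with hG
  set K := (J'⁻¹).submatrix τ τ with hK
  have hJu := isUnit_iff_ne_zero.2 hJ'det
  have hGK : G * K = 1 := by
    rw [hG, hK, Matrix.submatrix_mul_equiv, Matrix.mul_nonsing_inv _ hJu,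
      Matrix.submatrix_one_equiv]
  have hKG : K * G = 1 := by
    rw [hG, hK, Matrix.submatrix_mul_equiv, Matrix.nonsing_inv_mul _ hJu,
      Matrix.submatrix_one_equiv]
  have hG0 : ∀ x y, (χ (τ y) = (χ (τ x))⁻¹ → False) → G x y = 0 := by
    intro x y h
    by_contra hc
    exact h (hχJ' _ _ hc)
  have h11 : ∀ i j, G (Sum.inl i) (Sum.inl j) = 0 := by
    intro i j
    apply hG0
    intro h
    apply hP _ (ht1 i)
    rw [← h]
    exact ht1 j
  have h13 : ∀ i j, G (Sum.inl i) (Sum.inr (Sum.inr j)) = 0 := by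
    intro i j
    apply hG0
    intro h
    apply (ht3 j).2
    rw [h, inv_inv]
    exact ht1 i
  have h22 : ∀ i j, G (Sum.inr (Sum.inl i)) (Sum.inr (Sum.inl j)) = 0 := by
    intro i j
    apply hG0
    intro h
    apply hP _ (ht2 i)
    rw [inv_inv]
    have h1 := ht2 j
    rw [h, inv_inv] at h1
    exact h1
  have h23 : ∀ i j, G (Sum.inr (Sum.inl i)) (Sum.inr (Sum.inr j)) = 0 := by
    intro i j
    apply hG0
    intro h
    apply (ht3 j).1
    rw [h]
    exact ht2 i
  have h31 : ∀ i j, G (Sum.inr (Sum.inr i)) (Sum.inl j) = 0 := by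
    intro i j
    apply hG0
    intro h
    apply (ht3 i).2
    rw [← h]
    exact ht1 j
  have h32 : ∀ i j, G (Sum.inr (Sum.inr i)) (Sum.inr (Sum.inl j)) = 0 := by
    intro i j
    apply hG0
    intro h
    apply (ht3 i).1
    have h1 := ht2 j
    rw [h, inv_inv] at h1
    exact h1
  obtain ⟨hp1, hp2, hp3⟩ := pairing G K hGK hKG h11 h13 h22 h31 h32
  have hee : e = e' := by
    have h1 := Matrix.square_of_invertible _ _ hp1 hp2
    simpa using h1
  subst hee
  set f1 : Fin e → n := fun i => τ (Sum.inl i) with hf1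
  set f2 : Fin e → n := fun i => τ (Sum.inr (Sum.inl i)) with hf2
  set f3 : Fin w → n := fun i => τ (Sum.inr (Sum.inr i)) with hf3
  set Pi := J'.submatrix f1 f2 with hPi
  set Q := (J'⁻¹).submatrix f2 f1 with hQ
  have hPQ : Pi * Q = 1 := hp1
  have hQP : Q * Pi = 1 := hp2
  set Jw := J'.submatrix f3 f3 with hJw
  have hJwK : Jw * (J'⁻¹).submatrix f3 f3 = 1 := hp3
  have hJwdet : Jw.det ≠ 0 := by
    have h1 := congrArg Matrix.det hJwK
    rw [Matrix.det_mul, Matrix.det_one] at h1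
    exact left_ne_zero_of_mul_eq_one h1
  have hJwform : IsForm ε Jw := by
    refine ⟨hJ.eps, ?_, hJwdet⟩
    ext i j
    have h1 := congrFun (congrFun hJ'symm (f3 i)) (f3 j)
    exact h1
  have g12 : J'.submatrix f2 f1 = ε • Piᵀ := by
    ext i j
    have h1 := congrFun (congrFun hJ'symm (f1 j)) (f2 i)
    have hε : ε * ε = 1 := by
      rcases hJ.eps with h | h <;> rw [h] <;> ring
    show J' (f2 i) (f1 j) = ε * J' (f1 j) (f2 i)
    exact h1
  have e11 : J'.submatrix f1 f1 = 0 := by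
    ext i j
    exact h11 i j
  have e13 : J'.submatrix f1 f3 = 0 := by
    ext i j
    exact h13 i j
  have e22 : J'.submatrix f2 f2 = 0 := by
    ext i j
    exact h22 i j
  have e23 : J'.submatrix f2 f3 = 0 := by
    ext i j
    exact h23 i j
  have e31 : J'.submatrix f3 f1 = 0 := by
    ext i j
    exact h31 i j
  have e32 : J'.submatrix f3 f2 = 0 := by
    ext i j
    exact h32 i j
  set u : Matrix n (Fin e ⊕ (Fin e ⊕ Fin w)) k :=
    cols3 (u0.submatrix id f1) (u0.submatrix id f2 * Q) (u0.submatrix id f3) with hu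
  have hgram : uᵀ * J * u = LJ (Fin e) ε Jw := by
    have a1 : ∀ (a b : Type) [Fintype a] [Fintype b] (f : a → n) (g : b → n),
        (u0.submatrix id f)ᵀ * J * u0.submatrix id g = J'.submatrix f g :=
      fun a b _ _ f g => gram_submatrix J u0 f g
    rw [hu, gram_cols3, LJ, a1, a1, a1, a1]
    have a2 : (u0.submatrix id f1)ᵀ * J * (u0.submatrix id f2 * Q) = 1 := by
      rw [← Matrix.mul_assoc, a1]
      exact hPQ
    have a3 : (u0.submatrix id f2 * Q)ᵀ * J * u0.submatrix id f1 = ε • 1 := by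
      rw [Matrix.transpose_mul, Matrix.mul_assoc, Matrix.mul_assoc, ← Matrix.mul_assoc _ J, a1, g12,
        Matrix.mul_smul, ← Matrix.transpose_mul, hPQ, Matrix.transpose_one]
    have a4 : (u0.submatrix id f2 * Q)ᵀ * J * (u0.submatrix id f2 * Q) = 0 := by
      rw [Matrix.transpose_mul, Matrix.mul_assoc, Matrix.mul_assoc, ← Matrix.mul_assoc _ J,
        ← Matrix.mul_assoc (_ * J), a1, e22, Matrix.zero_mul, Matrix.mul_zero]
    have a5 : (u0.submatrix id f2 * Q)ᵀ * J * u0.submatrix id f3 = 0 := by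
      rw [Matrix.transpose_mul, Matrix.mul_assoc, Matrix.mul_assoc, ← Matrix.mul_assoc _ J, a1, e23,
        Matrix.mul_zero]
    have a6 : (u0.submatrix id f3)ᵀ * J * (u0.submatrix id f2 * Q) = 0 := by
      rw [← Matrix.mul_assoc, a1, e32, Matrix.zero_mul]
    rw [a2, a3, a4, a5, a6, e11, e13, e31]
  have hχPi : diagonal (fun i => χ (f1 i)) * Pi * diagonal (fun i => χ (f2 i)) = Pi := by
    ext i j
    have h1 := congrFun (congrFun hχJ (f1 i)) (f2 j)
    rw [Matrix.mul_diagonal, Matrix.diagonal_mul] at h1 ⊢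
    exact h1
  have hχQ : diagonal (fun i => χ (f2 i)) * Q = Q * diagonal (fun i => (χ (f1 i))⁻¹) := by
    have h1 : diagonal (fun i => (χ (f1 i))⁻¹) * diagonal (fun i => χ (f1 i)) =
        (1 : Matrix (Fin e) (Fin e) k) := by
      rw [Matrix.diagonal_mul_diagonal, ← Matrix.diagonal_one]
      congr 1
      funext i
      exact inv_mul_cancel₀ (hχ0 _)
    have h2 : Pi * diagonal (fun i => χ (f2 i)) = diagonal (fun i => (χ (f1 i))⁻¹) * Pi := by
      conv_rhs => rw [← hχPi]
      rw [← Matrix.mul_assoc, ← Matrix.mul_assoc, h1, Matrix.one_mul]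
    calc diagonal (fun i => χ (f2 i)) * Q
        = (Q * Pi) * (diagonal (fun i => χ (f2 i)) * Q) := by rw [hQP, Matrix.one_mul]
      _ = Q * (Pi * diagonal (fun i => χ (f2 i))) * Q := by simp only [Matrix.mul_assoc]
      _ = Q * diagonal (fun i => (χ (f1 i))⁻¹) * (Pi * Q) := by
          rw [h2]
          simp only [Matrix.mul_assoc]
      _ = Q * diagonal (fun i => (χ (f1 i))⁻¹) := by rw [hPQ, Matrix.mul_one]
  have hsu : s * u = u * dg (diagonal fun i => χ (f1 i)) (diagonal fun i => (χ (f1 i))⁻¹)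
      (diagonal fun i => χ (f3 i)) := by
    rw [hu, mul_cols3, cols3_dg, diag_submatrix s u0 χ hsu0, diag_submatrix s u0 χ hsu0,
      ← Matrix.mul_assoc, diag_submatrix s u0 χ hsu0, Matrix.mul_assoc, hχQ, Matrix.mul_assoc]
  obtain ⟨v, hv1, hv2, hv3⟩ := exists_v J s u (LJ (Fin e) ε Jw) _ (det_LJ ε Jw hJ.eps hJwdet)
    (Fintype.card_congr τ.symm) hgram hsu
  refine ⟨e, w, u, v, fun i => χ (f1 i), fun i => χ (f3 i), Jw, hv1, hv2, hgram, hv3, ?_, ?_,
    hJwform, ?_⟩
  · exact fun i => ⟨ht1 i, hχ0 _⟩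
  · exact fun j => ⟨(ht3 j).1, (ht3 j).2, hχ0 _⟩
  · rw [Matrix.diagonal_transpose]
    ext i j
    have h1 := congrFun (congrFun hχJ (f3 i)) (f3 j)
    rw [Matrix.mul_diagonal, Matrix.diagonal_mul] at h1 ⊢
    exact h1

end Pool.Agent.Helper97.CG
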