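import Pool.Agent.Helper82.CG.NF1

/-!
# NF2: normal form with an anticommuting isometry
-/

set_option autoImplicit false

namespace Pool.Agent.Helper97.CG

open Matrix Pool.Agent.Helper14.RG

universe u

namespace NF

variable {k : Type u} [Field k]

/-- two blocks of columns -/
theorem gram_cols2 {n r : Type*} [Fintype n] (J : Matrix n n k) (f g : Matrix n r k) :
    (fromCols f g)ᵀ * J * fromCols f g =
      fromBlocks (fᵀ * J * f) (fᵀ * J * g) (gᵀ * J * f) (gᵀ * J * g) := by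
  ext i j
  rcases i with i | i <;> rcases j with j | j <;> rfl

theorem cols2_swap {n r : Type*} [Fintype r] [DecidableEq r] (f g : Matrix n r k) :
    (fromCols f g : Matrix n (r ⊕ r) k) * (fromBlocks 0 1 1 0 : Matrix (r ⊕ r) (r ⊕ r) k) =
      fromCols g f := by
  rw [Matrix.fromCols_mul_fromBlocks]
  simp

theorem mul_cols2 {n n' r : Type*} [Fintype n] (s : Matrix n' n k) (f g : Matrix n r k) :
    s * (fromCols f g : Matrix n (r ⊕ r) k) = fromCols (s * f) (s * g) := by
  ext i j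
  rcases j with j | j <;> rfl

/-- two orthogonal classes -/
theorem orthog {e e' w : ℕ}
    (G K : Matrix (Fin e ⊕ (Fin e' ⊕ Fin w)) (Fin e ⊕ (Fin e' ⊕ Fin w)) k) (hGK : G * K = 1)
    (h12 : ∀ i j, G (Sum.inl i) (Sum.inr (Sum.inl j)) = 0)
    (h13 : ∀ i j, G (Sum.inl i) (Sum.inr (Sum.inr j)) = 0) :
    (G.submatrix (Sum.inl : Fin e → _) (Sum.inl : Fin e → _)) *
        (K.submatrix (Sum.inl : Fin e → _) (Sum.inl : Fin e → _)) = 1 := by
  ext i j
  have h1 := congrFun (congrFun hGK (Sum.inl i)) (Sum.inl j)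
  rw [Matrix.mul_apply, sum3] at h1
  simp only [h12, h13, zero_mul, Finset.sum_const_zero, add_zero] at h1
  rw [Matrix.mul_apply]
  simp only [Matrix.submatrix_apply]
  rw [h1, Matrix.one_apply, Matrix.one_apply]
  simp

/-- the matrix of the eigenvalues -/
theorem dg_diagonal {b w : ℕ} (I : k) (c : Fin w → k) :
    dg (I • (1 : Matrix (Fin b) (Fin b) k)) (-I • (1 : Matrix (Fin b) (Fin b) k))
      (diagonal c) = diagonal (Sum.elim (fun _ => I) (Sum.elim (fun _ => -I) c)) := by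
  ext i j
  rcases i with i | i | i <;> rcases j with j | j | j <;>
    simp [dg, mk3, Matrix.diagonal_apply, Matrix.one_apply, Matrix.smul_apply]

/-- the part with the eigenvalues 1 and -1 -/
theorem plusminus [CharZero k] {w : ℕ} (ε I : k) (hI : I * I = -1) (J h : Matrix (Fin w) (Fin w) k)
    (c : Fin w → k) (hJ : IsForm ε J) (hc : ∀ j, c j = 1 ∨ c j = -1)
    (hcJ : (diagonal c)ᵀ * J * diagonal c = J) (hh : hᵀ * J * h = J)
    (hanti : diagonal c * h = -(h * diagonal c)) :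
    ∃ (r : ℕ) (Jr : Matrix (Fin r) (Fin r) k) (u : Matrix (Fin w) (Fin r ⊕ Fin r) k),
      w = r + r ∧ IsForm ε Jr ∧ uᵀ * J * u = JR Jr ∧
        diagonal c * u = u * (fromBlocks 0 1 1 0 : Matrix (Fin r ⊕ Fin r) (Fin r ⊕ Fin r) k) := by
  have h20 : (2 : k) ≠ 0 := two_ne_zero
  have h11 : (1 : k) ≠ -1 := by
    intro h1
    exact h20 (by linear_combination h1)
  obtain ⟨r, r', w', τ, ht1, ht2, ht3⟩ := exists_split (fun i => c i = 1) (fun i => c i = -1)
    (fun i hi hi' => h11 (hi.symm.trans hi'))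
  have hw' : w' = 0 := by
    by_contra hne
    have h1 := ht3 ⟨0, Nat.pos_of_ne_zero hne⟩
    exact (hc _).elim h1.1 h1.2
  subst hw'
  have hhdet : h.det ≠ 0 := by
    intro h0
    have h1 := congrArg Matrix.det hh
    rw [Matrix.det_mul, h0, mul_zero] at h1
    exact hJ.det_ne h1.symm
  have hhu := isUnit_iff_ne_zero.2 hhdet
  have hJu := isUnit_iff_ne_zero.2 hJ.det_ne
  have hhc : ∀ i j, (c i + c j) * h i j = 0 := by
    intro i j
    have h1 := congrFun (congrFun hanti i) j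
    rw [Matrix.diagonal_mul, Matrix.neg_apply, Matrix.mul_diagonal] at h1
    linear_combination h1
  have hh0 : ∀ i j, c i = c j → h i j = 0 := by
    intro i j hij
    refine (mul_eq_zero.1 (hhc i j)).resolve_left ?_
    rw [hij]
    rcases hc j with h1 | h1 <;> rw [h1]
    · intro h2
      exact h20 (by linear_combination h2)
    · intro h2
      exact h20 (by linear_combination -h2)
  have hJc : ∀ i j, (c i * c j - 1) * J i j = 0 := by
    intro i j
    rw [Matrix.diagonal_transpose] at hcJ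
    have h1 := congrFun (congrFun hcJ i) j
    rw [Matrix.mul_diagonal, Matrix.diagonal_mul] at h1
    linear_combination h1
  set H := h.submatrix τ τ with hH
  set H' := (h⁻¹).submatrix τ τ with hH'
  have hHH' : H * H' = 1 := by
    rw [hH, hH', Matrix.submatrix_mul_equiv, Matrix.mul_nonsing_inv _ hhu,
      Matrix.submatrix_one_equiv]
  have hH'H : H' * H = 1 := by
    rw [hH, hH', Matrix.submatrix_mul_equiv, Matrix.nonsing_inv_mul _ hhu,
      Matrix.submatrix_one_equiv]
  obtain ⟨hp1, hp2, -⟩ := pairing H H' hHH' hH'H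
    (fun i j => hh0 _ _ (by rw [ht1 i, ht1 j])) (fun i j => j.elim0)
    (fun i j => hh0 _ _ (by rw [ht2 i, ht2 j])) (fun i j => i.elim0) (fun i j => i.elim0)
  have hrr : r = r' := by
    have h1 := Matrix.square_of_invertible _ _ hp1 hp2
    simpa using h1
  subst hrr
  have hw : w = r + r := by
    have h1 := Fintype.card_congr τ
    simpa using h1.symm
  set f1 : Fin r → Fin w := fun i => τ (Sum.inl i) with hf1
  set G := J.submatrix τ τ with hG
  set K := (J⁻¹).submatrix τ τ with hK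
  have hGK : G * K = 1 := by
    rw [hG, hK, Matrix.submatrix_mul_equiv, Matrix.mul_nonsing_inv _ hJu,
      Matrix.submatrix_one_equiv]
  have hGK1 := orthog G K hGK (fun i j => by
    refine (mul_eq_zero.1 (hJc _ _)).resolve_left ?_
    rw [ht1 i, ht2 j]
    intro h1
    exact h20 (by linear_combination -h1)) (fun i j => j.elim0)
  set J2 := J.submatrix f1 f1 with hJ2
  have hJ2K : J2 * (J⁻¹).submatrix f1 f1 = 1 := hGK1
  have hJ2det : J2.det ≠ 0 := by
    have h1 := congrArg Matrix.det hJ2K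
    rw [Matrix.det_mul, Matrix.det_one] at h1
    exact left_ne_zero_of_mul_eq_one h1
  have hJ2symm : J2ᵀ = ε • J2 := by
    ext i j
    exact congrFun (congrFun hJ.symm (f1 i)) (f1 j)
  set p : Matrix (Fin w) (Fin r) k := (1 : Matrix (Fin w) (Fin w) k).submatrix id f1 with hp
  have hpp : pᵀ * J * p = J2 := by
    rw [hp, gram_submatrix, Matrix.transpose_one, Matrix.one_mul, Matrix.mul_one]
  have hcp : diagonal c * p = p := by
    rw [hp, diag_submatrix (diagonal c) 1 c (by rw [Matrix.mul_one, Matrix.one_mul])]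
    have h1 : (diagonal fun i => c (f1 i)) = (1 : Matrix (Fin r) (Fin r) k) := by
      rw [← Matrix.diagonal_one]
      congr 1
      funext i
      exact ht1 i
    rw [h1, Matrix.mul_one]
  set q : Matrix (Fin w) (Fin r) k := I • (h * p) with hq
  have hcq : diagonal c * q = -q := by
    rw [hq, Matrix.mul_smul, ← Matrix.mul_assoc, hanti, Matrix.neg_mul, Matrix.mul_assoc, hcp,
      smul_neg]
  have hqq : qᵀ * J * q = -J2 := by
    rw [hq, Matrix.transpose_smul, Matrix.smul_mul, Matrix.smul_mul, Matrix.mul_smul, smul_smul,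
      hI, Matrix.transpose_mul]
    have h1 : pᵀ * hᵀ * J * (h * p) = pᵀ * (hᵀ * J * h) * p := by simp only [Matrix.mul_assoc]
    rw [h1, hh, hpp, neg_smul, one_smul]
  have hort : ∀ x y : Matrix (Fin w) (Fin r) k, ∀ t : k, t ≠ 1 →
      (diagonal c * x)ᵀ * J * (diagonal c * y) = t • (xᵀ * J * y) → xᵀ * J * y = 0 := by
    intro x y t ht h1
    have h2 : (diagonal c * x)ᵀ * J * (diagonal c * y) = xᵀ * J * y := by
      rw [Matrix.transpose_mul]
      have h3 : xᵀ * (diagonal c)ᵀ * J * (diagonal c * y) =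
          xᵀ * ((diagonal c)ᵀ * J * diagonal c) * y := by simp only [Matrix.mul_assoc]
      rw [h3, hcJ]
    rw [h2] at h1
    have h4 : (1 - t) • (xᵀ * J * y) = 0 := by
      rw [sub_smul, one_smul]
      exact sub_eq_zero.2 h1
    exact (smul_eq_zero.1 h4).resolve_left (sub_ne_zero.2 (Ne.symm ht))
  have hpq : pᵀ * J * q = 0 := by
    apply hort p q (-1) (Ne.symm h11)
    rw [hcp, hcq, Matrix.mul_neg, neg_smul, one_smul]
  have hqp : qᵀ * J * p = 0 := by
    apply hort q p (-1) (Ne.symm h11)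
    rw [hcp, hcq, Matrix.transpose_neg, Matrix.neg_mul, Matrix.neg_mul, neg_smul, one_smul]
  clear_value q
  have hg : ∀ a a' : k, (p + a • q)ᵀ * J * (p + a' • q) = (1 - a * a') • J2 := by
    intro a a'
    rw [Matrix.transpose_add, Matrix.transpose_smul, Matrix.add_mul, Matrix.add_mul,
      Matrix.mul_add, Matrix.mul_add, hpp, Matrix.mul_smul, hpq, Matrix.smul_mul,
      Matrix.smul_mul, hqp, Matrix.mul_smul, Matrix.smul_mul, hqq, smul_zero, smul_zero, add_zero, zero_add,
      smul_smul, smul_neg, sub_smul, one_smul, mul_comm a' a, sub_eq_add_neg]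
  refine ⟨r, (2 : k) • J2, fromCols (p + (1 : k) • q) (p + (-1 : k) • q), hw, ?_, ?_, ?_⟩
  · refine ⟨hJ.eps, ?_, ?_⟩
    · rw [Matrix.transpose_smul, hJ2symm, smul_comm]
    · rw [Matrix.det_smul]
      exact mul_ne_zero (pow_ne_zero _ h20) hJ2det
  · rw [gram_cols2, hg, hg, hg, hg, JR]
    congr 1
    · rw [mul_one, sub_self, zero_smul]
    · congr 1
      ring
    · congr 1
      ring
    · rw [mul_neg, mul_one, neg_neg, sub_self, zero_smul]
  · rw [cols2_swap, mul_cols2, Matrix.mul_add, Matrix.mul_add, Matrix.mul_smul, Matrix.mul_smul,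
      hcp, hcq]
    congr 1
    · rw [one_smul, neg_smul, one_smul]
    · rw [one_smul, neg_smul, one_smul, neg_neg]

/-- the determinant of an anti block diagonal matrix with three blocks, the last one empty -/
theorem det_anti {b : ℕ} {w : Type*} [Fintype w] [DecidableEq w] [IsEmpty w]
    (β γ : Matrix (Fin b) (Fin b) k) (Y : Matrix w w k) :
    (mk3 0 β 0 γ 0 0 0 0 Y).det = (-1) ^ b * (γ.det * β.det) := by
  have h1 : mk3 0 β 0 γ 0 0 0 0 Y = mk3 0 1 0 1 0 0 0 0 1 * dg γ β Y := by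
    rw [dg, mk3_mul]
    congr 1 <;> simp
  have h2 : (mk3 0 1 0 1 0 0 0 0 1 : Matrix (Fin b ⊕ (Fin b ⊕ w)) (Fin b ⊕ (Fin b ⊕ w)) k) *
      mk3 1 0 0 1 1 0 0 0 1 = mk3 1 1 0 1 0 0 0 0 1 := by
    rw [mk3_mul]
    congr 1 <;> simp
  have h3 : (mk3 1 0 0 1 1 0 0 0 1 : Matrix (Fin b ⊕ (Fin b ⊕ w)) (Fin b ⊕ (Fin b ⊕ w)) k) =
      nLow (1 : Matrix w w k) 1 0 := by
    rw [nLow]
    congr 1
    simp
  have h4 : (mk3 1 1 0 1 0 0 0 0 1 : Matrix (Fin b ⊕ (Fin b ⊕ w)) (Fin b ⊕ (Fin b ⊕ w)) k) *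
      mk3 1 (-1) 0 0 1 0 0 0 1 = mk3 1 0 0 1 (-1) 0 0 0 1 := by
    rw [mk3_mul]
    congr 1 <;> simp
  have h5 : (mk3 1 (-1) 0 0 1 0 0 0 1 : Matrix (Fin b ⊕ (Fin b ⊕ w)) (Fin b ⊕ (Fin b ⊕ w)) k) =
      nUp 1 (1 : Matrix w w k) (-1) 0 := by
    rw [nUp]
    congr 1
    simp
  have h6 : (mk3 1 0 0 1 (-1) 0 0 0 1 : Matrix (Fin b ⊕ (Fin b ⊕ w)) (Fin b ⊕ (Fin b ⊕ w)) k) =
      nLow (1 : Matrix w w k) 1 0 * dg 1 (-1) 1 := by
    rw [nLow, dg, mk3_mul]
    congr 1 <;> simp
  have d1 := congrArg Matrix.det h2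
  rw [Matrix.det_mul, h3, det_nLow, mul_one] at d1
  have d2 := congrArg Matrix.det h4
  rw [Matrix.det_mul, h5, det_nUp, mul_one, h6, Matrix.det_mul, det_nLow, one_mul, det_dg] at d2
  rw [h1, Matrix.det_mul, d1, d2, det_dg]
  simp [Matrix.det_neg]

end NF

open NF

variable {k : Type u} [Field k] [IsAlgClosed k] [CharZero k]

theorem st_NF2 : ST_NF2 k := by
  intro w ε Jw χ I hJ hI hχJ hχ4 ⟨h, hanti⟩
  have hI0 : I ≠ 0 := by
    rintro rfl
    rw [mul_zero] at hI
    exact (neg_ne_zero.2 (one_ne_zero (α := k))) hI.symm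
  have h20 : (2 : k) ≠ 0 := two_ne_zero
  have hII : I ≠ -I := by
    intro hc
    have h1 : (2 : k) * I = 0 := by linear_combination hc
    rcases mul_eq_zero.1 h1 with h2 | h2
    · exact h20 h2
    · exact hI0 h2
  have hI1 : I ≠ 1 := by
    rintro rfl
    have h1 : (2 : k) = 0 := by linear_combination hI
    exact h20 h1
  have hIm1 : I ≠ -1 := by
    rintro rfl
    have h1 : (2 : k) = 0 := by linear_combination hI
    exact h20 h1
  have hIinv : I⁻¹ = -I := by
    apply inv_eq_of_mul_eq_one_right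
    rw [mul_neg, hI, neg_neg]
  have hpow : (diagonal χ : Matrix (Fin w) (Fin w) k) ^ 4 = 1 := by
    rw [Matrix.diagonal_pow, ← Matrix.diagonal_one]
    congr 1
    funext j
    rw [Pi.pow_apply]
    rcases hχ4 j with h1 | h1 | h1 | h1 <;> rw [h1]
    · ring
    · ring
    · linear_combination (I * I - 1) * hI
    · linear_combination (I * I - 1) * hI
  obtain ⟨b, w1, u1, v1, c1, cw, J1, hu1, hv1, hg1, hs1, hc1, hcw, hJ1, hcJ1⟩ :=
    st_NF1 (Fin w) ε Jw (diagonal χ) hJ hχJ 4 (by norm_num) hpow (fun l => l = I) (by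
      rintro l rfl
      rw [hIinv]
      exact fun h1 => hII h1.symm)
  have hc1' : c1 = fun _ => I := by
    funext i
    exact (hc1 i).1
  -- the remaining eigenvalues are 1 and -1
  have hs1' : dg (diagonal c1) (diagonal fun i => (c1 i)⁻¹) (diagonal cw) =
      dg (I • (1 : Matrix (Fin b) (Fin b) k)) (-I • (1 : Matrix (Fin b) (Fin b) k))
        (diagonal cw) := by
    have e1 : (diagonal c1 : Matrix (Fin b) (Fin b) k) = I • 1 := by
      rw [hc1', ← Matrix.diagonal_one, ← Matrix.diagonal_smul]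
      congr 1
      funext i
      simp
    have e2 : (diagonal fun i => (c1 i)⁻¹ : Matrix (Fin b) (Fin b) k) = -I • 1 := by
      rw [← Matrix.diagonal_one, ← Matrix.diagonal_smul]
      congr 1
      funext i
      rw [hc1', hIinv]
      simp
    rw [e1, e2]
  rw [hs1'] at hs1
  have hcw1 : ∀ j, cw j = 1 ∨ cw j = -1 := by
    intro j
    have h1 : (dg (I • (1 : Matrix (Fin b) (Fin b) k)) (-I • (1 : Matrix (Fin b) (Fin b) k))
        (diagonal cw)) * (dg (I • (1 : Matrix (Fin b) (Fin b) k))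
        (-I • (1 : Matrix (Fin b) (Fin b) k)) (diagonal cw)) * ((dg (I • (1 : Matrix (Fin b)
        (Fin b) k)) (-I • (1 : Matrix (Fin b) (Fin b) k)) (diagonal cw)) * (dg (I • (1 : Matrix
        (Fin b) (Fin b) k)) (-I • (1 : Matrix (Fin b) (Fin b) k)) (diagonal cw))) = 1 := by
      rw [← hs1]
      calc v1 * diagonal χ * u1 * (v1 * diagonal χ * u1) *
            (v1 * diagonal χ * u1 * (v1 * diagonal χ * u1))
          = v1 * diagonal χ * (u1 * v1) * diagonal χ * (u1 * v1) * diagonal χ * (u1 * v1) *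
            diagonal χ * u1 := by simp only [Matrix.mul_assoc]
        _ = v1 * (diagonal χ) ^ 4 * u1 := by
            rw [hu1]
            simp only [Matrix.mul_one, pow_succ, pow_zero, Matrix.one_mul, Matrix.mul_assoc]
        _ = 1 := by rw [hpow, Matrix.mul_one, hv1]
    have h2 := congrArg b33 h1
    have h3 : b33 (1 : Matrix (Fin b ⊕ (Fin b ⊕ Fin w1)) (Fin b ⊕ (Fin b ⊕ Fin w1)) k) = 1 := by
      rw [← mk3_one]
      rfl
    rw [dg, mk3_mul, mk3_mul, h3] at h2
    have h5 := congrFun (congrFun h2 j) j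
    simp only [Matrix.mul_zero, Matrix.zero_mul, add_zero, zero_add, Matrix.diagonal_mul_diagonal,
      mk3, b33, Matrix.of_apply, Matrix.diagonal_apply_eq, Matrix.one_apply_eq] at h5
    have h6 : (cw j * cw j - 1) * (cw j * cw j + 1) = 0 := by linear_combination h5
    rcases mul_eq_zero.1 h6 with h7 | h7
    · have h8 : (cw j - 1) * (cw j + 1) = 0 := by linear_combination h7
      rcases mul_eq_zero.1 h8 with h9 | h9
      · left
        linear_combination h9
      · right
        linear_combination h9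
    · have h8 : (cw j - I) * (cw j + I) = 0 := by linear_combination h7 - hI
      rcases mul_eq_zero.1 h8 with h9 | h9
      · exact ((hcw j).1 (by linear_combination h9)).elim
      · refine ((hcw j).2.1 ?_).elim
        have h10 : cw j = -I := by linear_combination h9
        rw [h10, inv_neg, hIinv, neg_neg]
  -- the anticommuting element in the new basis
  set D : Matrix (Fin b ⊕ (Fin b ⊕ Fin w1)) (Fin b ⊕ (Fin b ⊕ Fin w1)) k :=
    dg (I • (1 : Matrix (Fin b) (Fin b) k)) (-I • (1 : Matrix (Fin b) (Fin b) k))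
      (diagonal cw) with hD
  set dd : Fin b ⊕ (Fin b ⊕ Fin w1) → k := Sum.elim (fun _ => I) (Sum.elim (fun _ => -I) cw) with hdd
  have hDd : D = diagonal dd := dg_diagonal I cw
  set h0 : Matrix (Fin w) (Fin w) k := isoHom Jw h with hh0
  have hh0iso : h0ᵀ * Jw * h0 = Jw := h.2
  have hh0det : h0.det = 1 := h.1.2
  set h2 := v1 * h0 * u1 with hh2
  have hDh : D * h2 = -(h2 * D) := by
    rw [← hs1, hh2]
    calc v1 * diagonal χ * u1 * (v1 * h0 * u1)
        = v1 * diagonal χ * (u1 * v1) * h0 * u1 := by simp only [Matrix.mul_assoc]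
      _ = v1 * (diagonal χ * h0) * u1 := by
          rw [hu1]
          simp only [Matrix.mul_one, Matrix.mul_assoc]
      _ = -(v1 * h0 * (u1 * v1) * diagonal χ * u1) := by
          rw [hanti, hu1]
          simp only [Matrix.mul_one, Matrix.mul_neg, Matrix.neg_mul, Matrix.mul_assoc]
      _ = -(v1 * h0 * u1 * (v1 * diagonal χ * u1)) := by simp only [Matrix.mul_assoc]
  have hh2iso : h2ᵀ * LJ (Fin b) ε J1 * h2 = LJ (Fin b) ε J1 := by
    rw [← hg1, hh2]
    calc (v1 * h0 * u1)ᵀ * (u1ᵀ * Jw * u1) * (v1 * h0 * u1)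
        = u1ᵀ * h0ᵀ * (u1 * v1)ᵀ * Jw * (u1 * v1) * h0 * u1 := by
          simp only [Matrix.transpose_mul, Matrix.mul_assoc]
      _ = u1ᵀ * (h0ᵀ * Jw * h0) * u1 := by
          rw [hu1, Matrix.transpose_one]
          simp only [Matrix.mul_one, Matrix.mul_assoc]
      _ = u1ᵀ * Jw * u1 := by rw [hh0iso]
  have hh2det : h2.det = 1 := by
    rw [hh2, Matrix.det_conj_of_mul_eq_one hv1 hu1, hh0det]
  have hz : ∀ x y, (dd x + dd y) * h2 x y = 0 := by
    intro x y
    have h1 := congrFun (congrFun hDh x) y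
    rw [hDd, Matrix.diagonal_mul, Matrix.neg_apply, Matrix.mul_diagonal] at h1
    linear_combination h1
  have hz' : ∀ x y, dd x + dd y ≠ 0 → h2 x y = 0 := fun x y hxy =>
    (mul_eq_zero.1 (hz x y)).resolve_left hxy
  have hI2 : I + I ≠ 0 := by
    intro h1
    have h3 : (2 : k) * I = 0 := by linear_combination h1
    rcases mul_eq_zero.1 h3 with h4 | h4
    · exact h20 h4
    · exact hI0 h4
  have hIc : ∀ j, I + cw j ≠ 0 ∧ -I + cw j ≠ 0 := by
    intro j
    rcases hcw1 j with h1 | h1 <;> rw [h1]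
    · exact ⟨fun h3 => hIm1 (by linear_combination h3), fun h3 => hI1 (by linear_combination -h3)⟩
    · exact ⟨fun h3 => hI1 (by linear_combination h3), fun h3 => hIm1 (by linear_combination -h3)⟩
  have z11 : b11 h2 = 0 := by
    ext i j
    exact hz' _ _ hI2
  have z13 : b13 h2 = 0 := by
    ext i j
    exact hz' _ _ (hIc j).1
  have z22 : b22 h2 = 0 := by
    ext i j
    refine hz' _ _ ?_
    show -I + -I ≠ 0
    intro h1
    exact hI2 (by linear_combination -h1)
  have z23 : b23 h2 = 0 := by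
    ext i j
    exact hz' _ _ (hIc j).2
  have z31 : b31 h2 = 0 := by
    ext i j
    refine hz' _ _ ?_
    show cw i + I ≠ 0
    rw [add_comm]
    exact (hIc i).1
  have z32 : b32 h2 = 0 := by
    ext i j
    refine hz' _ _ ?_
    show cw i + -I ≠ 0
    rw [add_comm]
    exact (hIc i).2
  have heta := mk3_eta h2
  rw [z11, z13, z22, z23, z31, z32] at heta
  have hiso3 := hh2iso
  rw [← heta, LJ, mk3_transpose, mk3_mul, mk3_mul] at hiso3
  obtain ⟨⟨-, i12, -⟩, -, ⟨-, -, i33⟩⟩ := mk3_inj hiso3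
  simp only [Matrix.transpose_zero, Matrix.zero_mul, Matrix.mul_zero, zero_add, add_zero] at i12 i33
  have hanti3 : diagonal cw * b33 h2 = -(b33 h2 * diagonal cw) := by
    have h1 := hDh
    rw [hD, ← heta, dg, mk3_mul, mk3_mul, mk3_neg] at h1
    obtain ⟨-, -, ⟨-, -, h3⟩⟩ := mk3_inj h1
    simpa using h3
  obtain ⟨r, Jr, u2, hw1, hJr, hg2, hs2⟩ := plusminus ε I hI J1 (b33 h2) cw hJ1 hcw1 hcJ1 i33 hanti3
  -- the three blocks of `u1`
  set x1 : Matrix (Fin w) (Fin b) k := u1.submatrix id Sum.inl with hx1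
  set x2 : Matrix (Fin w) (Fin b) k := u1.submatrix id (fun i => Sum.inr (Sum.inl i)) with hx2
  set x3 : Matrix (Fin w) (Fin w1) k := u1.submatrix id (fun i => Sum.inr (Sum.inr i)) with hx3
  have hux : u1 = cols3 x1 x2 x3 := by
    ext i j
    rcases j with j | j | j <;> rfl
  have hgr := hg1
  rw [hux, gram_cols3, LJ] at hgr
  obtain ⟨⟨g11, g12, g13⟩, ⟨g21, g22, g23⟩, ⟨g31, g32, g33⟩⟩ := mk3_inj hgr
  have hsx : diagonal χ * u1 = u1 * D := by
    rw [← hs1]
    calc diagonal χ * u1 = (u1 * v1) * (diagonal χ * u1) := by rw [hu1, Matrix.one_mul]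
      _ = u1 * (v1 * diagonal χ * u1) := by simp only [Matrix.mul_assoc]
  rw [hux, mul_cols3, hD, cols3_dg] at hsx
  have s1 : diagonal χ * x1 = x1 * (I • (1 : Matrix (Fin b) (Fin b) k)) := by
    ext i j
    exact congrFun (congrFun hsx i) (Sum.inl j)
  have s2 : diagonal χ * x2 = x2 * (-I • (1 : Matrix (Fin b) (Fin b) k)) := by
    ext i j
    exact congrFun (congrFun hsx i) (Sum.inr (Sum.inl j))
  have s3 : diagonal χ * x3 = x3 * diagonal cw := by
    ext i j
    exact congrFun (congrFun hsx i) (Sum.inr (Sum.inr j))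
  have hgram : (cols3 x1 x2 (x3 * u2))ᵀ * Jw * cols3 x1 x2 (x3 * u2) = LJ (Fin b) ε (JR Jr) := by
    rw [gram_cols3, g11, g12, g21, g22, LJ]
    have e1 : x1ᵀ * Jw * (x3 * u2) = 0 := by
      rw [← Matrix.mul_assoc, g13, Matrix.zero_mul]
    have e2 : x2ᵀ * Jw * (x3 * u2) = 0 := by
      rw [← Matrix.mul_assoc, g23, Matrix.zero_mul]
    have e3 : (x3 * u2)ᵀ * Jw * x1 = 0 := by
      rw [Matrix.transpose_mul, Matrix.mul_assoc, Matrix.mul_assoc, ← Matrix.mul_assoc _ Jw, g31,
        Matrix.mul_zero]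
    have e4 : (x3 * u2)ᵀ * Jw * x2 = 0 := by
      rw [Matrix.transpose_mul, Matrix.mul_assoc, Matrix.mul_assoc, ← Matrix.mul_assoc _ Jw, g32,
        Matrix.mul_zero]
    have e5 : (x3 * u2)ᵀ * Jw * (x3 * u2) = JR Jr := by
      have h1 : (x3 * u2)ᵀ * Jw * (x3 * u2) = u2ᵀ * (x3ᵀ * Jw * x3) * u2 := by
        rw [Matrix.transpose_mul]
        simp only [Matrix.mul_assoc]
      rw [h1, g33, hg2]
    rw [e1, e2, e3, e4, e5]
  have hsu : diagonal χ * cols3 x1 x2 (x3 * u2) = cols3 x1 x2 (x3 * u2) *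
      dg (I • (1 : Matrix (Fin b) (Fin b) k)) (-I • (1 : Matrix (Fin b) (Fin b) k))
        (fromBlocks 0 1 1 0 : Matrix (Fin r ⊕ Fin r) (Fin r ⊕ Fin r) k) := by
    rw [mul_cols3, cols3_dg, s1, s2, ← Matrix.mul_assoc, s3, Matrix.mul_assoc, hs2,
      Matrix.mul_assoc]
  have hcard : Fintype.card (Fin w) = Fintype.card (Fin b ⊕ (Fin b ⊕ (Fin r ⊕ Fin r))) := by
    have h1 := Matrix.square_of_invertible _ _ hu1 hv1
    simp only [Fintype.card_fin, Fintype.card_sum] at h1 ⊢
    omega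
  have hJRdet : (JR Jr).det ≠ 0 := by
    have h1 : JR Jr * (fromBlocks 0 Jr⁻¹ Jr⁻¹ 0 : Matrix (Fin r ⊕ Fin r) (Fin r ⊕ Fin r) k) = 1 := by
      rw [JR, Matrix.fromBlocks_multiply, ← Matrix.fromBlocks_one]
      congr 1 <;> simp [Matrix.mul_nonsing_inv _ (isUnit_iff_ne_zero.2 hJr.det_ne)]
    have h3 := congrArg Matrix.det h1
    rw [Matrix.det_mul, Matrix.det_one] at h3
    exact left_ne_zero_of_mul_eq_one h3
  obtain ⟨v, hv, hv', hv''⟩ := exists_v Jw (diagonal χ) (cols3 x1 x2 (x3 * u2))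
    (LJ (Fin b) ε (JR Jr)) _ (det_LJ ε (JR Jr) hJ.eps hJRdet) hcard hgram hsu
  refine ⟨b, r, Jr, cols3 x1 x2 (x3 * u2), v, hv, hv', hJr, ?_, hgram, hv''⟩
  rintro rfl hε
  subst hε
  have hw0 : w1 = 0 := by omega
  subst hw0
  have d1 := hh2det
  rw [← heta, det_anti] at d1
  have d2 := congrArg Matrix.det i12
  rw [one_smul, Matrix.mul_one, Matrix.det_mul, Matrix.det_transpose, Matrix.det_one] at d2
  rw [d2, mul_one] at d1
  rcases Nat.even_or_odd b with hb | hb
  · exact hb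
  · rw [hb.neg_one_pow] at d1
    exact (h20 (by linear_combination -d1)).elim

end Pool.Agent.Helper97.CG
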