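import Pool.Agent.Helper97.CG.Stmts
import Pool.Agent.Helper14.RG.Diag

/-!
# Tools for the normal forms of isometries of finite order
-/

set_option autoImplicit false

namespace Pool.Agent.Helper97.CG

open Matrix Pool.Agent.Helper14.RG

universe u

namespace NF

variable {k : Type u} [Field k]

/-- three blocks of columns -/
def cols3 {n e e' w : Type*} (u1 : Matrix n e k) (u2 : Matrix n e' k) (u3 : Matrix n w k) :
    Matrix n (e ⊕ (e' ⊕ w)) k :=
  Matrix.of fun i j => match j with
    | Sum.inl j => u1 i j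
    | Sum.inr (Sum.inl j) => u2 i j
    | Sum.inr (Sum.inr j) => u3 i j

theorem mul_cols3 {n n' e e' w : Type*} [Fintype n] (s : Matrix n' n k) (u1 : Matrix n e k)
    (u2 : Matrix n e' k) (u3 : Matrix n w k) :
    s * cols3 u1 u2 u3 = cols3 (s * u1) (s * u2) (s * u3) := by
  ext i j
  rcases j with j | j | j <;> rfl

theorem cols3_dg {n e w : Type*} [Fintype e] [DecidableEq e] [Fintype w] [DecidableEq w]
    (u1 u2 : Matrix n e k) (u3 : Matrix n w k) (a a' : Matrix e e k) (Y : Matrix w w k) :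
    cols3 u1 u2 u3 * dg a a' Y = cols3 (u1 * a) (u2 * a') (u3 * Y) := by
  ext i j
  rcases j with j | j | j <;>
    simp [Matrix.mul_apply, cols3, dg, mk3, Fintype.sum_sum_type]

theorem gram_cols3 {n e w : Type*} [Fintype n] (J : Matrix n n k) (u1 u2 : Matrix n e k)
    (u3 : Matrix n w k) :
    (cols3 u1 u2 u3)ᵀ * J * cols3 u1 u2 u3 =
      mk3 (u1ᵀ * J * u1) (u1ᵀ * J * u2) (u1ᵀ * J * u3) (u2ᵀ * J * u1) (u2ᵀ * J * u2)
        (u2ᵀ * J * u3) (u3ᵀ * J * u1) (u3ᵀ * J * u2) (u3ᵀ * J * u3) := by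
  ext i j
  rcases i with i | i | i <;> rcases j with j | j | j <;> rfl

theorem gram_submatrix {n a b : Type*} [Fintype n] (J u0 : Matrix n n k)
    (f : a → n) (g : b → n) :
    (u0.submatrix id f)ᵀ * J * u0.submatrix id g = (u0ᵀ * J * u0).submatrix f g := by
  ext i j
  rfl

theorem diag_submatrix {n a : Type*} [Fintype n] [DecidableEq n] [Fintype a] [DecidableEq a]
    (s u0 : Matrix n n k) (χ : n → k) (h : s * u0 = u0 * diagonal χ) (f : a → n) :
    s * u0.submatrix id f = u0.submatrix id f * diagonal (fun i => χ (f i)) := by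
  ext i j
  have h1 := congrFun (congrFun h i) (f j)
  rw [Matrix.mul_diagonal] at h1
  rw [Matrix.mul_diagonal]
  exact h1

theorem det_LJ {e w : Type*} [Fintype e] [DecidableEq e] [Fintype w] [DecidableEq w] (ε : k)
    (Jw : Matrix w w k) (hε : ε = 1 ∨ ε = -1) (h : Jw.det ≠ 0) : (LJ e ε Jw).det ≠ 0 := by
  have hεε : ε * ε = 1 := by
    rcases hε with rfl | rfl <;> ring
  have h1 : LJ e ε Jw * mk3 0 (ε • (1 : Matrix e e k)) 0 1 0 0 0 0 Jw⁻¹ = 1 := by
    rw [LJ, mk3_mul, ← mk3_one]
    congr 1 <;> simp [smul_smul, hεε, Matrix.mul_nonsing_inv _ (isUnit_iff_ne_zero.2 h)]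
  have h2 := congrArg Matrix.det h1
  rw [Matrix.det_mul, Matrix.det_one] at h2
  exact left_ne_zero_of_mul_eq_one h2

theorem exists_v {n m : Type} [Fintype n] [DecidableEq n] [Fintype m] [DecidableEq m]
    (J s : Matrix n n k) (u : Matrix n m k) (L d : Matrix m m k) (hL : L.det ≠ 0)
    (hcard : Fintype.card n = Fintype.card m) (h : uᵀ * J * u = L) (hs : s * u = u * d) :
    ∃ v : Matrix m n k, u * v = 1 ∧ v * u = 1 ∧ v * s * u = d := by
  have hvu : (L⁻¹ * (uᵀ * J)) * u = 1 := by
    rw [Matrix.mul_assoc, h, Matrix.nonsing_inv_mul _ (isUnit_iff_ne_zero.2 hL)]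
  refine ⟨L⁻¹ * (uᵀ * J), ?_, hvu, ?_⟩
  · exact (Matrix.mul_eq_one_comm_of_card_eq _ _ _ hcard.symm).1 hvu
  · rw [Matrix.mul_assoc, hs, ← Matrix.mul_assoc, hvu, Matrix.one_mul]

theorem exists_diag {n : Type} [Fintype n] [DecidableEq n] [IsAlgClosed k] [CharZero k]
    (s : Matrix n n k) (N : ℕ) (hN : 0 < N) (hs : s ^ N = 1) :
    ∃ (u : Matrix n n k) (χ : n → k), u.det ≠ 0 ∧ s * u = u * diagonal χ := by
  obtain ⟨c, hc, χ, hχ⟩ := exists_simul_diag (Γ := Unit) (fun _ => s.transpose) (fun _ _ => rfl) N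
    (by exact_mod_cast hN.ne') (fun _ => 1) (fun _ => one_ne_zero) (fun _ => by
      rw [← Matrix.transpose_pow, hs, one_smul, Matrix.transpose_one])
  refine ⟨c.transpose, χ (), ?_, ?_⟩
  · rw [Matrix.det_transpose]
    exact ((Matrix.isUnit_iff_isUnit_det _).mp hc).ne_zero
  · have h1 := congrArg Matrix.transpose (hχ ())
    rw [Matrix.transpose_mul, Matrix.transpose_mul, Matrix.transpose_transpose,
      Matrix.diagonal_transpose] at h1
    exact h1

/-- three classes of indices -/
theorem exists_split {n : Type} [Fintype n] (P Q : n → Prop) (h : ∀ i, P i → ¬ Q i) :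
    ∃ (e e' w : ℕ) (τ : Fin e ⊕ (Fin e' ⊕ Fin w) ≃ n), (∀ i, P (τ (Sum.inl i))) ∧
      (∀ i, Q (τ (Sum.inr (Sum.inl i)))) ∧
      (∀ i, ¬ P (τ (Sum.inr (Sum.inr i))) ∧ ¬ Q (τ (Sum.inr (Sum.inr i)))) := by
  classical
  let a1 := Fintype.equivFin {i // P i}
  let a2 := Fintype.equivFin {i // Q i}
  let a3 := Fintype.equivFin {i // ¬ P i ∧ ¬ Q i}
  let f : Fin (Fintype.card {i // P i}) ⊕ (Fin (Fintype.card {i // Q i}) ⊕
      Fin (Fintype.card {i // ¬ P i ∧ ¬ Q i})) → n :=
    Sum.elim (fun i => (a1.symm i).1) (Sum.elim (fun i => (a2.symm i).1) (fun i => (a3.symm i).1))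
  have hf : Function.Bijective f := by
    constructor
    · rintro (i | i | i) (j | j | j) hij
      · have h1 : a1.symm i = a1.symm j := Subtype.ext hij
        rw [a1.symm.injective h1]
      · exact (h _ (a1.symm i).2 (by
          have h1 : (a1.symm i).1 = (a2.symm j).1 := hij
          rw [h1]
          exact (a2.symm j).2)).elim
      · exact ((a3.symm j).2.1 (by
          have h1 : (a1.symm i).1 = (a3.symm j).1 := hij
          rw [← h1]
          exact (a1.symm i).2)).elim
      · exact (h _ (a1.symm j).2 (by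
          have h1 : (a2.symm i).1 = (a1.symm j).1 := hij
          rw [← h1]
          exact (a2.symm i).2)).elim
      · have h1 : a2.symm i = a2.symm j := Subtype.ext hij
        rw [a2.symm.injective h1]
      · exact ((a3.symm j).2.2 (by
          have h1 : (a2.symm i).1 = (a3.symm j).1 := hij
          rw [← h1]
          exact (a2.symm i).2)).elim
      · exact ((a3.symm i).2.1 (by
          have h1 : (a3.symm i).1 = (a1.symm j).1 := hij
          rw [h1]
          exact (a1.symm j).2)).elim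
      · exact ((a3.symm i).2.2 (by
          have h1 : (a3.symm i).1 = (a2.symm j).1 := hij
          rw [h1]
          exact (a2.symm j).2)).elim
      · have h1 : a3.symm i = a3.symm j := Subtype.ext hij
        rw [a3.symm.injective h1]
    · intro x
      by_cases h1 : P x
      · exact ⟨Sum.inl (a1 ⟨x, h1⟩), by simp [f]⟩
      · by_cases h2 : Q x
        · exact ⟨Sum.inr (Sum.inl (a2 ⟨x, h2⟩)), by simp [f]⟩
        · exact ⟨Sum.inr (Sum.inr (a3 ⟨x, h1, h2⟩)), by simp [f]⟩
  exact ⟨_, _, _, Equiv.ofBijective f hf, fun i => (a1.symm i).2, fun i => (a2.symm i).2,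
    fun i => (a3.symm i).2⟩

end NF

end Pool.Agent.Helper97.CG
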